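import Pool.Agent.U356.FA.Fin

/-!
# Orientable fillings of the circle, of any genus, have area at least `1.972 π`

`M` is a compact oriented Riemannian surface, of any genus, whose boundary is the circle of length
`2π`; boundary points are not closer in `M` than in the circle. The bound follows from the criterion
of `Pool.Agent.N979.P1` (a function of the plane, given by finitely many rational numbers, such that
the eigenvalues of certain products of two symmetric `2 × 2` matrices are at most `4`, gives a lower
bound for the area). Here the function is given by `264` radii and `48` slopes, found with a
semidefinite interior point method; the conditions are verified at `528` places with integers only,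
by the evaluation of a test whose soundness is proved in `Pool.Agent.U356.FA.Rel`.
-/

set_option autoImplicit false

open MeasureTheory Metric Set InnerProductGeometry

namespace Pool.Agent.Results.MP_ecf18f_gt.AreaAnyGenus1972

open Pool.Agent.H241R3.FV Pool.Agent.N526.CP

/-- Every compact oriented Riemannian surface `M`, of any genus, whose boundary is the circle of
length `2π` and in which boundary points `x`, `y` have at least the distance which they have in the
circle (the angle between the unit vectors `x` and `y`), has area at least `1.972 π`. -/
theorem result (M : Type) [MetricSpace M] [CompactSpace M] (S : OFill 2 M)
    (hS : ∀ x y : Sph 2, angle (x : E 2) (y : E 2) ≤ dist (S.bd x) (S.bd y)) :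
    ENNReal.ofReal (1.972 * Real.pi) ≤ S.vol :=
  Pool.Agent.U356.FA.Fin.area M S hS

end Pool.Agent.Results.MP_ecf18f_gt.AreaAnyGenus1972
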